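import Pool.Agent.W744.BU.Stm

set_option autoImplicit false

open Set Filter Topology

namespace Pool.Agent.W37.BU.LAM

open Pool.Agent.W744.BU

lemma two_pos' : 0 < (2 : ENNReal).toReal := by norm_num

lemma memperm {G : Type} (σ : G ≃ G) (f : L2 G) :
    Memℓp (fun h => (f : G → ℂ) (σ h)) 2 := by
  have h1 := (memℓp_gen_iff two_pos').1 (lp.memℓp f)
  exact (memℓp_gen_iff two_pos').2 (h1.comp_injective σ.injective)

/-- The linear map. -/
noncomputable def permLin {G : Type} (σ : G ≃ G) : L2 G →ₗ[ℂ] L2 G where
  toFun f := ⟨fun h => (f : G → ℂ) (σ h), memperm σ f⟩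
  map_add' f g := by
    ext h
    rfl
  map_smul' c f := by
    ext h
    rfl

lemma permLin_apply {G : Type} (σ : G ≃ G) (f : L2 G) (h : G) :
    (permLin σ f : G → ℂ) h = (f : G → ℂ) (σ h) := rfl

/-- The operator. -/
noncomputable def permOp {G : Type} (σ : G ≃ G) : Op G :=
  LinearMap.mkContinuous (permLin σ) 1 (by
    intro f
    rw [one_mul, lp.norm_eq_tsum_rpow two_pos', lp.norm_eq_tsum_rpow two_pos']
    apply le_of_eq
    congr 1
    exact σ.tsum_eq (fun i => ‖(f : G → ℂ) i‖ ^ (2 : ENNReal).toReal))

lemma permOp_apply {G : Type} (σ : G ≃ G) (f : L2 G) (h : G) :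
    (permOp σ f : G → ℂ) h = (f : G → ℂ) (σ h) := rfl

open Classical in
lemma entry_permOp {G : Type} (σ : G ≃ G) (h k : G) :
    entry (permOp σ) h k = if σ h = k then 1 else 0 := by
  unfold entry
  rw [permOp_apply]
  unfold e
  rw [lp.single_apply, Pi.single_apply]

lemma entry_opOf {I : Type} (m : I → I → ℂ) (h : ∃ a : Op I, ∀ i j, entry a i j = m i j)
    (i j : I) : entry (opOf m) i j = m i j := by
  unfold opOf
  rw [dif_pos h]
  exact h.choose_spec i j

open Classical in
lemma entry_lam {G : Type} [Group G] (g h k : G) :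
    entry (lam g) h k = if h = g * k then 1 else 0 := by
  unfold lam
  rw [entry_opOf]
  refine ⟨permOp (Equiv.mulLeft g⁻¹), fun i j => ?_⟩
  rw [entry_permOp]
  have : (Equiv.mulLeft g⁻¹) i = j ↔ i = g * j := by
    simp only [Equiv.coe_mulLeft]
    constructor
    · rintro rfl
      simp
    · rintro rfl
      simp
  simp only [this]

theorem main (hE : S_ENT) (hT : S_TENS) (hD : S_DOP) : S_LAM := by
  classical
  obtain ⟨hE1, hE2, hE3, -, hE5⟩ := hE
  obtain ⟨hT1, -⟩ := hT
  intro G _
  have h1 : lam (1 : G) = 1 := by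
    apply hE1
    intro i j
    rw [entry_lam, hE5, one_mul]
  have h2 : ∀ g h : G, lam (g * h) = lam g * lam h := by
    intro g h
    apply hE1
    intro i j
    have hs := hE3 G (lam g) (lam h) i j
    have hs' : HasSum (fun k => entry (lam g) i k * entry (lam h) k j)
        (entry (lam g) i (h * j) * entry (lam h) (h * j) j) := by
      apply hasSum_single
      intro k hk
      rw [entry_lam h k j, if_neg hk, mul_zero]
    rw [hs.unique hs', entry_lam, entry_lam, entry_lam, if_pos rfl, mul_one, mul_assoc]
  have h3 : ∀ g : G, star (lam g) = lam g⁻¹ := by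
    intro g
    apply hE1
    intro i j
    rw [hE2, entry_lam, entry_lam]
    by_cases hij : j = g * i
    · have : i = g⁻¹ * j := by rw [hij]; simp
      rw [if_pos hij, if_pos this, star_one]
    · have : ¬ i = g⁻¹ * j := by
        intro h
        apply hij
        rw [h]; simp
      rw [if_neg hij, if_neg this, star_zero]
  refine ⟨entry_lam, h1, h2, h3, ?_, ?_⟩
  · intro g
    rw [Unitary.mem_iff, h3, ← h2, ← h2, inv_mul_cancel, mul_inv_cancel, h1]
    exact ⟨rfl, rfl⟩
  · intro g
    apply hE1
    rintro ⟨p, p'⟩ ⟨q, q'⟩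
    rw [(hT1 G G (lam g) (lam g)).1 p p' q q', (hD G G id).1 (lam g) (p, p') (q, q'),
      entry_lam, entry_lam]
    simp only [id]
    by_cases hp : p = g * q
    · subst hp
      have : (g * q)⁻¹ * p' = q⁻¹ * q' ↔ p' = g * q' := by
        constructor
        · intro h
          have h' : p' = (g * q) * (q⁻¹ * q') := by rw [← h]; group
          rw [h']; group
        · rintro rfl
          group
      simp only [this, if_true, one_mul]
    · simp only [if_neg hp, zero_mul, ite_self]

end Pool.Agent.W37.BU.LAM
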